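import Mathlib

/-!
# The second numerical index of the real spaces underlying `ℂ ⊕_∞ ℂ` and `ℂ ⊕_1 ℂ` is at most
`(9/7) √(3/7)`
-/

set_option autoImplicit false

namespace Pool.Agent.Results.MP_1cee73_an.BelowSqrtThreeHalves

section defs

variable (X : Type) [NormedAddCommGroup X] [NormedSpace ℝ X]

/-- the numerical radius of a bounded operator on a real normed space -/
noncomputable def numRadius {X : Type} [NormedAddCommGroup X] [NormedSpace ℝ X] (T : X →L[ℝ] X) : ℝ :=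
  sSup {r : ℝ | ∃ (x : X) (f : X →L[ℝ] ℝ), ‖x‖ = 1 ∧ ‖f‖ = 1 ∧ f x = 1 ∧ r = |f (T x)|}

/-- the norm of `T` modulo the operators of numerical radius zero -/
noncomputable def quotNorm {X : Type} [NormedAddCommGroup X] [NormedSpace ℝ X] (T : X →L[ℝ] X) : ℝ :=
  sInf {r : ℝ | ∃ S : X →L[ℝ] X, numRadius S = 0 ∧ r = ‖T + S‖}

/-- the second numerical index -/
noncomputable def secondIndex : ℝ :=
  sInf {r : ℝ | ∃ T : X →L[ℝ] X, quotNorm T = 1 ∧ r = numRadius T}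

end defs

section general

variable {X : Type} [NormedAddCommGroup X] [NormedSpace ℝ X]

theorem numRadius_nonneg (T : X →L[ℝ] X) : 0 ≤ numRadius T := by
  apply Real.sSup_nonneg
  rintro r ⟨x, f, -, -, -, rfl⟩
  exact abs_nonneg _

theorem le_numRadius (T : X →L[ℝ] X) {x : X} {f : X →L[ℝ] ℝ} (hx : ‖x‖ = 1) (hf : ‖f‖ = 1)
    (h : f x = 1) : |f (T x)| ≤ numRadius T := by
  refine le_csSup ?_ ⟨x, f, hx, hf, h, rfl⟩
  refine ⟨‖T‖, ?_⟩
  rintro r ⟨y, g, hy, hg, -, rfl⟩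
  rw [← Real.norm_eq_abs]
  calc ‖g (T y)‖ ≤ ‖g‖ * ‖T y‖ := g.le_opNorm _
    _ ≤ ‖g‖ * (‖T‖ * ‖y‖) := by gcongr; exact T.le_opNorm _
    _ = ‖T‖ := by rw [hg, hy]; ring

theorem zero_of (S : X →L[ℝ] X) (h0 : numRadius S = 0) {x : X} {f : X →L[ℝ] ℝ} (hx : ‖x‖ = 1)
    (hf : ‖f‖ = 1) (h : f x = 1) : f (S x) = 0 := by
  have := le_numRadius S hx hf h
  rw [h0] at this
  exact abs_eq_zero.1 (le_antisymm this (abs_nonneg _))

theorem smul_zero_of (S : X →L[ℝ] X) (h0 : numRadius S = 0) (c : ℝ) : numRadius (c • S) = 0 := by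
  apply le_antisymm _ (numRadius_nonneg _)
  apply Real.sSup_le _ le_rfl
  rintro r ⟨x, f, hx, hf, h, rfl⟩
  have := zero_of S h0 hx hf h
  simp [this]

theorem quotNorm_smul (T : X →L[ℝ] X) {c : ℝ} (hc : 0 < c) : quotNorm (c • T) = c * quotNorm T := by
  unfold quotNorm
  rw [← smul_eq_mul, ← Real.sInf_smul_of_nonneg hc.le]
  congr 1
  ext r
  constructor
  · rintro ⟨S, hS, rfl⟩
    refine ⟨‖T + c⁻¹ • S‖, ⟨_, smul_zero_of S hS _, rfl⟩, ?_⟩
    have : c • T + S = c • (T + c⁻¹ • S) := by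
      rw [smul_add, smul_smul, mul_inv_cancel₀ hc.ne', one_smul]
    rw [this, norm_smul, Real.norm_of_nonneg hc.le]
    rfl
  · rintro ⟨_, ⟨S, hS, rfl⟩, rfl⟩
    refine ⟨c • S, smul_zero_of S hS c, ?_⟩
    rw [← smul_add, norm_smul, Real.norm_of_nonneg hc.le]
    rfl

/-- an operator of numerical radius `≤ a` and norm `≥ b > 0` modulo `Z(X)` -/
theorem index_le (T : X →L[ℝ] X) {a b : ℝ} (hb : 0 < b) (ha : 0 ≤ a)
    (h1 : ∀ (x : X) (f : X →L[ℝ] ℝ), ‖x‖ = 1 → ‖f‖ = 1 → f x = 1 → |f (T x)| ≤ a)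
    (h2 : ∀ S : X →L[ℝ] X, numRadius S = 0 → b ≤ ‖T + S‖) : secondIndex X ≤ a / b := by
  have hz : numRadius (0 : X →L[ℝ] X) = 0 := by
    apply le_antisymm _ (numRadius_nonneg _)
    apply Real.sSup_le _ le_rfl
    rintro r ⟨x, f, hx, hf, h, rfl⟩
    simp
  have hN : b ≤ quotNorm T := by
    refine le_csInf ⟨‖T + 0‖, 0, hz, rfl⟩ ?_
    rintro r ⟨S, hS, rfl⟩
    exact h2 S hS
  have hN0 : 0 < quotNorm T := hb.trans_le hN
  have h3 : secondIndex X ≤ numRadius ((quotNorm T)⁻¹ • T) := by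
    apply csInf_le
    · refine ⟨0, ?_⟩
      rintro r ⟨T', -, rfl⟩
      exact numRadius_nonneg _
    · refine ⟨_, ?_, rfl⟩
      rw [quotNorm_smul T (inv_pos.2 hN0), inv_mul_cancel₀ hN0.ne']
  refine h3.trans ?_
  apply Real.sSup_le _ (by positivity)
  rintro r ⟨x, f, hx, hf, h, rfl⟩
  have h4 := h1 x f hx hf h
  have h5 : f (((quotNorm T)⁻¹ • T) x) = (quotNorm T)⁻¹ * f (T x) := by simp
  rw [h5, abs_mul, abs_of_pos (inv_pos.2 hN0), inv_mul_le_iff₀ hN0]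
  calc |f (T x)| ≤ a := h4
    _ = b * (a / b) := by field_simp
    _ ≤ quotNorm T * (a / b) := by gcongr

end general

section concrete

theorem dot_le (ζ : ℂ) (a b : ℝ) (h : a ^ 2 + b ^ 2 ≤ 1) : a * ζ.re + b * ζ.im ≤ ‖ζ‖ := by
  have h1 : (a * ζ.re + b * ζ.im) ^ 2 ≤ ‖ζ‖ ^ 2 := by
    rw [Complex.sq_norm, Complex.normSq_apply]
    have h2 := mul_le_mul_of_nonneg_right h (by positivity : 0 ≤ ζ.re ^ 2 + ζ.im ^ 2)
    nlinarith [sq_nonneg (a * ζ.im - b * ζ.re)]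
  exact (abs_le.1 (abs_le_of_sq_le_sq h1 (norm_nonneg _))).2

/-- the operator `(y, w) ↦ (-7 Re y + i (Im y + 8 Im w), 0)` -/
noncomputable def T0 : (ℂ × ℂ) →L[ℝ] (ℂ × ℂ) :=
  LinearMap.toContinuousLinearMap
    { toFun := fun x => (⟨-7 * x.1.re, x.1.im + 8 * x.2.im⟩, 0)
      map_add' := fun x y => by
        apply Prod.ext
        · apply Complex.ext
          · simp; ring
          · simp; ring
        · simp
      map_smul' := fun c x => by
        apply Prod.ext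
        · apply Complex.ext
          · simp; ring
          · simp; ring
        · simp }

theorem T0_apply (x : ℂ × ℂ) : T0 x = (⟨-7 * x.1.re, x.1.im + 8 * x.2.im⟩, 0) := rfl

theorem fst_repr (f : (ℂ × ℂ) →L[ℝ] ℝ) (z : ℂ) :
    f (z, 0) = z.re * f (1, 0) + z.im * f (Complex.I, 0) := by
  have h : ((z, 0) : ℂ × ℂ) = z.re • ((1, 0) : ℂ × ℂ) + z.im • ((Complex.I, 0) : ℂ × ℂ) := by
    apply Prod.ext
    · apply Complex.ext <;> simp
    · simp
  conv_lhs => rw [h]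
  rw [map_add, map_smul, map_smul]
  rfl

theorem upper (x : ℂ × ℂ) (f : (ℂ × ℂ) →L[ℝ] ℝ) (hx : ‖x‖ = 1) (hf : ‖f‖ = 1) (h : f x = 1) :
    |f (T0 x)| ≤ 9 := by
  obtain ⟨y, w⟩ := x
  have hy : ‖y‖ ≤ 1 := by rw [← hx]; exact le_max_left _ _
  have hw : ‖w‖ ≤ 1 := by rw [← hx]; exact le_max_right _ _
  set g1 := f (1, 0) with hg1
  set g2 := f (Complex.I, 0) with hg2
  have hle : ∀ z : ℂ × ℂ, ‖z‖ ≤ 1 → f z ≤ 1 := by
    intro z hz
    have := f.le_opNorm z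
    rw [hf, one_mul, Real.norm_eq_abs] at this
    exact (le_abs_self _).trans (this.trans hz)
  have hT : f (T0 (y, w)) = -7 * y.re * g1 + (y.im + 8 * w.im) * g2 := by
    rw [T0_apply, fst_repr]
  rw [hT]
  set ρ := √(g1 ^ 2 + g2 ^ 2) with hρ
  have hρ0 : 0 ≤ ρ := Real.sqrt_nonneg _
  have hρ2 : ρ ^ 2 = g1 ^ 2 + g2 ^ 2 := Real.sq_sqrt (by positivity)
  have hy2 : y.re ^ 2 + y.im ^ 2 ≤ 1 := by
    have h1 : ‖y‖ ^ 2 ≤ 1 ^ 2 := pow_le_pow_left₀ (norm_nonneg _) hy 2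
    rw [Complex.sq_norm, Complex.normSq_apply] at h1
    nlinarith
  have hw2 : w.im ^ 2 ≤ 1 := by
    have h1 : ‖w‖ ^ 2 ≤ 1 ^ 2 := pow_le_pow_left₀ (norm_nonneg _) hw 2
    rw [Complex.sq_norm, Complex.normSq_apply] at h1
    nlinarith [sq_nonneg w.re]
  rcases hρ0.eq_or_lt with h0 | hpos
  · have h1 : g1 ^ 2 + g2 ^ 2 = 0 := by rw [← hρ2, ← h0]; ring
    have h2 : g1 = 0 := by nlinarith [sq_nonneg g1, sq_nonneg g2]
    have h3 : g2 = 0 := by nlinarith [sq_nonneg g1, sq_nonneg g2]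
    rw [h2, h3]
    norm_num
  · have hsplit : ∀ z : ℂ, f (z, w) = z.re * g1 + z.im * g2 + f (0, w) := by
      intro z
      have : ((z, w) : ℂ × ℂ) = (z, 0) + (0, w) := by simp
      rw [this, map_add, fst_repr]
    -- `ρ ≤ y · g`
    have h1 : ρ ≤ y.re * g1 + y.im * g2 := by
      have h2 := hle ((⟨g1 / ρ, g2 / ρ⟩ : ℂ), w) (by
        apply max_le _ hw
        apply le_of_sq_le_sq _ (by norm_num)
        rw [Complex.sq_norm, Complex.normSq_apply]
        have : g1 / ρ * (g1 / ρ) + g2 / ρ * (g2 / ρ) = 1 := by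
          field_simp
          linarith
        simp only [this]
        norm_num)
      rw [hsplit] at h2
      rw [hsplit] at h
      have h3 : (⟨g1 / ρ, g2 / ρ⟩ : ℂ).re * g1 + (⟨g1 / ρ, g2 / ρ⟩ : ℂ).im * g2 = ρ := by
        show g1 / ρ * g1 + g2 / ρ * g2 = ρ
        field_simp
        linarith
      linarith
    have h2 : (g1 - ρ * y.re) ^ 2 + (g2 - ρ * y.im) ^ 2 ≤ 0 := by
      have e : (g1 - ρ * y.re) ^ 2 + (g2 - ρ * y.im) ^ 2 =
          ρ ^ 2 - 2 * ρ * (y.re * g1 + y.im * g2) + ρ ^ 2 * (y.re ^ 2 + y.im ^ 2) := by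
        linear_combination (-1 : ℝ) * hρ2
      rw [e]
      nlinarith [mul_le_mul_of_nonneg_left h1 hρ0, mul_le_mul_of_nonneg_left hy2 (sq_nonneg ρ)]
    have h3 : g1 = ρ * y.re := by
      have : (g1 - ρ * y.re) ^ 2 ≤ 0 := by nlinarith [sq_nonneg (g2 - ρ * y.im)]
      have h9 : g1 - ρ * y.re = 0 :=
        (pow_eq_zero_iff (n := 2) (by norm_num)).1 (le_antisymm this (sq_nonneg _))
      linarith
    have h4 : g2 = ρ * y.im := by
      have : (g2 - ρ * y.im) ^ 2 ≤ 0 := by nlinarith [sq_nonneg (g1 - ρ * y.re)]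
      have h9 : g2 - ρ * y.im = 0 :=
        (pow_eq_zero_iff (n := 2) (by norm_num)).1 (le_antisymm this (sq_nonneg _))
      linarith
    have h5 : y.re ^ 2 + y.im ^ 2 = 1 := by
      have : ρ ^ 2 * (y.re ^ 2 + y.im ^ 2) = ρ ^ 2 * 1 := by
        rw [mul_one]
        conv_rhs => rw [hρ2, h3, h4]
        ring
      exact mul_left_cancel₀ (by positivity) this
    have h6 : ρ ≤ 1 := by
      have h7 := hle (y, 0) (by
        apply max_le hy
        simp)
      rw [fst_repr] at h7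
      linarith
    have e : -7 * y.re * g1 + (y.im + 8 * w.im) * g2 =
        ρ * (-7 * y.re ^ 2 + y.im ^ 2 + 8 * y.im * w.im) := by
      rw [h3, h4]; ring
    rw [e, abs_mul, abs_of_pos hpos]
    have h8 : |-7 * y.re ^ 2 + y.im ^ 2 + 8 * y.im * w.im| ≤ 9 := by
      rw [abs_le]
      constructor
      · nlinarith [sq_nonneg (2 * y.im + w.im)]
      · nlinarith [sq_nonneg (y.im - w.im), sq_nonneg y.re]
    calc ρ * |-7 * y.re ^ 2 + y.im ^ 2 + 8 * y.im * w.im| ≤ 1 * 9 :=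
          mul_le_mul h6 h8 (abs_nonneg _) (by norm_num)
      _ = 9 := by norm_num

/-- the functional `(z, w) ↦ a Re z + b Im z` -/
noncomputable def fn (a b : ℝ) : (ℂ × ℂ) →L[ℝ] ℝ :=
  LinearMap.toContinuousLinearMap
    { toFun := fun x => a * x.1.re + b * x.1.im
      map_add' := fun x y => by simp; ring
      map_smul' := fun c x => by simp; ring }

theorem fn_apply (a b : ℝ) (x : ℂ × ℂ) : fn a b x = a * x.1.re + b * x.1.im := rfl

theorem norm_mk {a b : ℝ} (h : a ^ 2 + b ^ 2 = 1) : ‖(⟨a, b⟩ : ℂ)‖ = 1 := by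
  have : ‖(⟨a, b⟩ : ℂ)‖ ^ 2 = 1 := by
    rw [Complex.sq_norm, Complex.normSq_apply]
    show a * a + b * b = 1
    linarith
  nlinarith [norm_nonneg (⟨a, b⟩ : ℂ)]

theorem norm_fn {a b : ℝ} (h : a ^ 2 + b ^ 2 = 1) : ‖fn a b‖ = 1 := by
  apply le_antisymm
  · apply ContinuousLinearMap.opNorm_le_bound _ (by norm_num)
    intro x
    rw [fn_apply, one_mul, Real.norm_eq_abs, abs_le]
    have h1 := dot_le x.1 a b h.le
    have h2 := dot_le x.1 (-a) (-b) (by nlinarith)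
    have h3 : ‖x.1‖ ≤ ‖x‖ := le_max_left _ _
    constructor <;> linarith
  · have h1 := (fn a b).le_opNorm ((⟨a, b⟩ : ℂ), 0)
    have h2 : ‖(((⟨a, b⟩ : ℂ), 0) : ℂ × ℂ)‖ = 1 := by
      show max ‖(⟨a, b⟩ : ℂ)‖ ‖(0 : ℂ)‖ = 1
      rw [norm_mk h, norm_zero]
      norm_num
    rw [h2, fn_apply, mul_one, Real.norm_eq_abs] at h1
    have h3 : a * (⟨a, b⟩ : ℂ).re + b * (⟨a, b⟩ : ℂ).im = 1 := by
      show a * a + b * b = 1
      linarith
    rw [h3, abs_one] at h1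
    exact h1

theorem state (S : (ℂ × ℂ) →L[ℝ] (ℂ × ℂ)) (h0 : numRadius S = 0) {a b : ℝ} (h : a ^ 2 + b ^ 2 = 1)
    (w : ℂ) (hw : ‖w‖ ≤ 1) : a * (S (⟨a, b⟩, w)).1.re + b * (S (⟨a, b⟩, w)).1.im = 0 := by
  have h1 : ‖((⟨a, b⟩, w) : ℂ × ℂ)‖ = 1 := by
    show max ‖(⟨a, b⟩ : ℂ)‖ ‖w‖ = 1
    rw [norm_mk h]
    exact max_eq_left hw
  have h2 : fn a b ((⟨a, b⟩, w) : ℂ × ℂ) = 1 := by
    rw [fn_apply]
    show a * a + b * b = 1
    linarith
  exact zero_of S h0 h1 (norm_fn h) h2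

theorem skew (S : (ℂ × ℂ) →L[ℝ] (ℂ × ℂ)) (h0 : numRadius S = 0) :
    ∃ t : ℝ, ∀ z : ℂ, (S (z, Complex.I)).1.re = -t * z.im ∧ (S (z, Complex.I)).1.im = t * z.re := by
  have hI : ‖Complex.I‖ ≤ 1 := by simp
  have e1 : (⟨1, 0⟩ : ℂ) = 1 := rfl
  have e2 : (⟨0, 1⟩ : ℂ) = Complex.I := rfl
  have a1 := state S h0 (a := 1) (b := 0) (by norm_num) 0 (by simp)
  have a2 := state S h0 (a := 0) (b := 1) (by norm_num) 0 (by simp)
  have a3 := state S h0 (a := 3 / 5) (b := 4 / 5) (by norm_num) 0 (by simp)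
  have b1 := state S h0 (a := 1) (b := 0) (by norm_num) Complex.I hI
  have b2 := state S h0 (a := 0) (b := 1) (by norm_num) Complex.I hI
  have lin : ∀ (z w : ℂ), S (z, w) = z.re • S (1, 0) + z.im • S (Complex.I, 0) + S (0, w) := by
    intro z w
    have h : ((z, w) : ℂ × ℂ) = z.re • ((1, 0) : ℂ × ℂ) + z.im • ((Complex.I, 0) : ℂ × ℂ) + (0, w) := by
      apply Prod.ext
      · apply Complex.ext <;> simp
      · simp
    conv_lhs => rw [h]
    rw [map_add, map_add, map_smul, map_smul]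
  have hz : S ((0 : ℂ), (0 : ℂ)) = 0 := map_zero S
  rw [lin, hz] at a1 a2 a3
  rw [lin] at b1 b2
  simp at a1 a2 a3 b1 b2
  have c1 : (S (Complex.I, 0)).1.re = -(S (1, 0)).1.im := by linarith
  have c2 : (S (0, Complex.I)).1.re = 0 := by linarith
  have c3 : (S (0, Complex.I)).1.im = 0 := by linarith
  refine ⟨(S (1, 0)).1.im, fun z => ?_⟩
  rw [lin]
  simp [a1, a2, c1, c2, c3]
  constructor <;> ring

theorem lower (S : (ℂ × ℂ) →L[ℝ] (ℂ × ℂ)) (h0 : numRadius S = 0) : 7 * √21 / 3 ≤ ‖T0 + S‖ := by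
  obtain ⟨t, ht⟩ := skew S h0
  have hr : √21 ^ 2 = 21 := Real.sq_sqrt (by norm_num)
  have hp : √35 ^ 2 = 35 := Real.sq_sqrt (by norm_num)
  have hq : √15 ^ 2 = 15 := Real.sq_sqrt (by norm_num)
  have hpq : √35 * √15 = 5 * √21 := by
    rw [← Real.sqrt_mul (by norm_num)]
    rw [show (5 : ℝ) = √25 by rw [show (25 : ℝ) = 5 ^ 2 by norm_num]; exact (Real.sqrt_sq (by norm_num)).symm,
      ← Real.sqrt_mul (by norm_num)]
    norm_num
  have hbound : ∀ (z : ℂ) (a b : ℝ), ‖z‖ = 1 → a ^ 2 + b ^ 2 = 1 →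
      a * (-7 * z.re - t * z.im) + b * (z.im + 8 + t * z.re) ≤ ‖T0 + S‖ := by
    intro z a b hz hab
    have h1 := (T0 + S).le_opNorm (z, Complex.I)
    have h2 : ‖((z, Complex.I) : ℂ × ℂ)‖ = 1 := by
      show max ‖z‖ ‖Complex.I‖ = 1
      rw [hz, Complex.norm_I]
      norm_num
    rw [h2, mul_one] at h1
    have h3 : ‖((T0 + S) (z, Complex.I)).1‖ ≤ ‖(T0 + S) (z, Complex.I)‖ := le_max_left _ _
    have h4 := dot_le ((T0 + S) (z, Complex.I)).1 a b hab.le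
    have h5 : ((T0 + S) (z, Complex.I)).1.re = -7 * z.re - t * z.im := by
      show (T0 (z, Complex.I) + S (z, Complex.I)).1.re = _
      rw [T0_apply, Prod.fst_add, Complex.add_re, (ht z).1]
      simp
      ring
    have h6 : ((T0 + S) (z, Complex.I)).1.im = z.im + 8 + t * z.re := by
      show (T0 (z, Complex.I) + S (z, Complex.I)).1.im = _
      rw [T0_apply, Prod.fst_add, Complex.add_im, (ht z).2]
      simp
    rw [h5, h6] at h4
    linarith
  have n1 : ‖(⟨-(√35 / 6), 1 / 6⟩ : ℂ)‖ = 1 := norm_mk (by linarith [hp])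
  have n2 : ‖(⟨√35 / 6, 1 / 6⟩ : ℂ)‖ = 1 := norm_mk (by linarith [hp])
  have k1 := hbound ⟨-(√35 / 6), 1 / 6⟩ (√15 / 6) (√21 / 6) n1 (by linarith [hq, hr])
  have k2 := hbound ⟨√35 / 6, 1 / 6⟩ (-(√15 / 6)) (√21 / 6) n2 (by linarith [hq, hr])
  simp only at k1 k2
  linarith [k1, k2, hpq]

end concrete

section one

/-- `ℂ ⊕_1 ℂ` -/
abbrev P : Type := WithLp 1 (ℂ × ℂ)

/-- the point `(z, w)` -/
noncomputable def mk (z w : ℂ) : P := WithLp.toLp 1 (z, w)

theorem norm_P (x : P) : ‖x‖ = ‖x.fst‖ + ‖x.snd‖ := WithLp.prod_norm_eq_of_L1 x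

theorem norm_mk1 (z w : ℂ) : ‖mk z w‖ = ‖z‖ + ‖w‖ := norm_P _

theorem ext_P {x y : P} (h1 : x.fst = y.fst) (h2 : x.snd = y.snd) : x = y := by
  apply (WithLp.equiv 1 (ℂ × ℂ)).injective
  exact Prod.ext h1 h2

/-- the operator `(y, w) ↦ (-7 Re y + i Im y, 8 i Im y)` -/
noncomputable def T1 : P →L[ℝ] P :=
  LinearMap.toContinuousLinearMap
    { toFun := fun x => mk ⟨-7 * x.fst.re, x.fst.im⟩ ⟨0, 8 * x.fst.im⟩
      map_add' := fun x y => by
        apply ext_P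
        · apply Complex.ext
          · show -7 * (x.fst + y.fst).re = -7 * x.fst.re + -7 * y.fst.re
            rw [Complex.add_re]; ring
          · show (x.fst + y.fst).im = x.fst.im + y.fst.im
            rw [Complex.add_im]
        · apply Complex.ext
          · show (0 : ℝ) = 0 + 0
            ring
          · show 8 * (x.fst + y.fst).im = 8 * x.fst.im + 8 * y.fst.im
            rw [Complex.add_im]; ring
      map_smul' := fun c x => by
        apply ext_P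
        · apply Complex.ext
          · show -7 * (c • x.fst).re = (c • (⟨-7 * x.fst.re, x.fst.im⟩ : ℂ)).re
            simp; ring
          · show (c • x.fst).im = (c • (⟨-7 * x.fst.re, x.fst.im⟩ : ℂ)).im
            simp
        · apply Complex.ext
          · show (0 : ℝ) = (c • (⟨0, 8 * x.fst.im⟩ : ℂ)).re
            simp
          · show 8 * (c • x.fst).im = (c • (⟨0, 8 * x.fst.im⟩ : ℂ)).im
            simp; ring }

theorem T1_apply (x : P) : T1 x = mk ⟨-7 * x.fst.re, x.fst.im⟩ ⟨0, 8 * x.fst.im⟩ := rfl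

theorem repr1 (f : P →L[ℝ] ℝ) (z w : ℂ) :
    f (mk z w) = z.re * f (mk 1 0) + z.im * f (mk Complex.I 0) +
      (w.re * f (mk 0 1) + w.im * f (mk 0 Complex.I)) := by
  have h : mk z w = z.re • mk 1 0 + z.im • mk Complex.I 0 +
      (w.re • mk 0 1 + w.im • mk 0 Complex.I) := by
    apply ext_P
    · show z = z.re • (1 : ℂ) + z.im • Complex.I + (w.re • (0 : ℂ) + w.im • (0 : ℂ))
      apply Complex.ext <;> simp
    · show w = z.re • (0 : ℂ) + z.im • (0 : ℂ) + (w.re • (1 : ℂ) + w.im • Complex.I)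
      apply Complex.ext <;> simp
  conv_lhs => rw [h]
  rw [map_add, map_add, map_add, map_smul, map_smul, map_smul, map_smul]
  rfl

theorem sq_norm' (z : ℂ) : ‖z‖ ^ 2 = z.re ^ 2 + z.im ^ 2 := by
  rw [Complex.sq_norm, Complex.normSq_apply]; ring

/-- a functional of norm at most `1` which is bounded by `‖z‖` has a coefficient vector of norm at
most one -/
theorem coef {a b : ℝ} (h : ∀ z : ℂ, z.re * a + z.im * b ≤ ‖z‖) : a ^ 2 + b ^ 2 ≤ 1 := by
  have h1 := h ⟨a, b⟩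
  have h2 := sq_norm' ⟨a, b⟩
  have h3 : a * a + b * b ≤ ‖(⟨a, b⟩ : ℂ)‖ := h1
  have h4 : ‖(⟨a, b⟩ : ℂ)‖ ^ 2 = a ^ 2 + b ^ 2 := h2
  nlinarith [norm_nonneg (⟨a, b⟩ : ℂ)]

theorem upper1 (x : P) (f : P →L[ℝ] ℝ) (hx : ‖x‖ = 1) (hf : ‖f‖ = 1) (h : f x = 1) :
    |f (T1 x)| ≤ 9 := by
  obtain ⟨y, w, rfl⟩ : ∃ y w, x = mk y w := ⟨x.fst, x.snd, rfl⟩
  rw [norm_mk1] at hx
  have hle : ∀ z : P, f z ≤ ‖z‖ := by
    intro z
    have := f.le_opNorm z
    rw [hf, one_mul, Real.norm_eq_abs] at this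
    exact (le_abs_self _).trans this
  set g1 := f (mk 1 0) with hg1
  set g2 := f (mk Complex.I 0) with hg2
  set h1 := f (mk 0 1) with hh1
  set h2 := f (mk 0 Complex.I) with hh2
  have hg : g1 ^ 2 + g2 ^ 2 ≤ 1 := by
    apply coef
    intro z
    have := hle (mk z 0)
    rw [repr1, norm_mk1, norm_zero] at this
    simpa using this
  have hh : h1 ^ 2 + h2 ^ 2 ≤ 1 := by
    apply coef
    intro z
    have := hle (mk 0 z)
    rw [repr1, norm_mk1, norm_zero] at this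
    simpa using this
  have hT : f (T1 (mk y w)) = -7 * y.re * g1 + y.im * g2 + 8 * y.im * h2 := by
    rw [T1_apply, repr1]
    show -7 * y.re * g1 + y.im * g2 + (0 * h1 + 8 * y.im * h2) = _
    ring
  rw [hT]
  set η := ‖y‖ with hη
  have hη0 : 0 ≤ η := norm_nonneg _
  have hη1 : η ≤ 1 := by linarith [norm_nonneg w]
  have hη2 : η ^ 2 = y.re ^ 2 + y.im ^ 2 := sq_norm' y
  have hgy : η ≤ y.re * g1 + y.im * g2 := by
    rw [repr1] at h
    have h3 : w.re * h1 + w.im * h2 ≤ ‖w‖ := by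
      have := dot_le w h1 h2 hh
      linarith
    linarith
  have key : (η * g1 - y.re) ^ 2 + (η * g2 - y.im) ^ 2 ≤ 0 := by
    have e : (η * g1 - y.re) ^ 2 + (η * g2 - y.im) ^ 2 =
        η ^ 2 * (g1 ^ 2 + g2 ^ 2) - 2 * η * (y.re * g1 + y.im * g2) + η ^ 2 := by
      linear_combination (-1 : ℝ) * hη2
    rw [e]
    nlinarith [mul_le_mul_of_nonneg_left hgy hη0, mul_le_mul_of_nonneg_left hg (sq_nonneg η)]
  have e1 : y.re = η * g1 := by
    have : (η * g1 - y.re) ^ 2 ≤ 0 := by nlinarith [sq_nonneg (η * g2 - y.im)]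
    have h9 : η * g1 - y.re = 0 :=
      (pow_eq_zero_iff (n := 2) (by norm_num)).1 (le_antisymm this (sq_nonneg _))
    linarith
  have e2 : y.im = η * g2 := by
    have : (η * g2 - y.im) ^ 2 ≤ 0 := by nlinarith [sq_nonneg (η * g1 - y.re)]
    have h9 : η * g2 - y.im = 0 :=
      (pow_eq_zero_iff (n := 2) (by norm_num)).1 (le_antisymm this (sq_nonneg _))
    linarith
  have e : -7 * y.re * g1 + y.im * g2 + 8 * y.im * h2 =
      η * (-7 * g1 ^ 2 + g2 ^ 2 + 8 * g2 * h2) := by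
    rw [e1, e2]; ring
  rw [e, abs_mul, abs_of_nonneg hη0]
  rcases hη0.eq_or_lt with h0 | hpos
  · rw [← h0]; norm_num
  · have h5 : g1 ^ 2 + g2 ^ 2 = 1 := by
      have h6 : η ^ 2 * (g1 ^ 2 + g2 ^ 2) = η ^ 2 * 1 := by
        rw [mul_one]
        conv_rhs => rw [hη2, e1, e2]
        ring
      exact mul_left_cancel₀ (by positivity) h6
    have hh2' : h2 ^ 2 ≤ 1 := by nlinarith [sq_nonneg h1]
    have h8 : |-7 * g1 ^ 2 + g2 ^ 2 + 8 * g2 * h2| ≤ 9 := by
      rw [abs_le]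
      constructor
      · nlinarith [sq_nonneg (2 * g2 + h2)]
      · nlinarith [sq_nonneg (g2 - h2), sq_nonneg g1]
    calc η * |-7 * g1 ^ 2 + g2 ^ 2 + 8 * g2 * h2| ≤ 1 * 9 :=
          mul_le_mul hη1 h8 (abs_nonneg _) (by norm_num)
      _ = 9 := by norm_num

/-- the functional `(z, w) ↦ a Re z + b Im z + d Im w` -/
noncomputable def fn1 (a b d : ℝ) : P →L[ℝ] ℝ :=
  LinearMap.toContinuousLinearMap
    { toFun := fun x => a * x.fst.re + b * x.fst.im + d * x.snd.im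
      map_add' := fun x y => by
        show a * (x.fst + y.fst).re + b * (x.fst + y.fst).im + d * (x.snd + y.snd).im = _
        simp only [Complex.add_re, Complex.add_im]
        ring
      map_smul' := fun c x => by
        show a * (c • x.fst).re + b * (c • x.fst).im + d * (c • x.snd).im = _
        simp
        ring }

theorem fn1_apply (a b d : ℝ) (x : P) : fn1 a b d x = a * x.fst.re + b * x.fst.im + d * x.snd.im :=
  rfl

theorem fn1_le {a b d : ℝ} (h : a ^ 2 + b ^ 2 = 1) (hd : d ^ 2 ≤ 1) (x : P) :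
    fn1 a b d x ≤ ‖x‖ := by
  rw [fn1_apply, norm_P]
  have h1 := dot_le x.fst a b h.le
  have h2 := dot_le x.snd 0 d (by nlinarith)
  linarith

theorem norm_fn1 {a b d : ℝ} (h : a ^ 2 + b ^ 2 = 1) (hd : d ^ 2 ≤ 1) : ‖fn1 a b d‖ = 1 := by
  apply le_antisymm
  · apply ContinuousLinearMap.opNorm_le_bound _ (by norm_num)
    intro x
    rw [one_mul, Real.norm_eq_abs, abs_le]
    have h1 := fn1_le h hd x
    have h2 := fn1_le h hd (-x)
    rw [map_neg, norm_neg] at h2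
    constructor <;> linarith
  · have h1 := (fn1 a b d).le_opNorm (mk ⟨a, b⟩ 0)
    rw [norm_mk1, norm_mk h, norm_zero, add_zero, mul_one, Real.norm_eq_abs] at h1
    have h3 : fn1 a b d (mk ⟨a, b⟩ 0) = 1 := by
      show a * a + b * b + d * (0 : ℂ).im = 1
      rw [Complex.zero_im]
      linarith
    rw [h3, abs_one] at h1
    exact h1

theorem state1 (S : P →L[ℝ] P) (h0 : numRadius S = 0) {a b d : ℝ} (h : a ^ 2 + b ^ 2 = 1)
    (hd : d ^ 2 ≤ 1) : a * (S (mk ⟨a, b⟩ 0)).fst.re + b * (S (mk ⟨a, b⟩ 0)).fst.im +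
      d * (S (mk ⟨a, b⟩ 0)).snd.im = 0 := by
  have h1 : ‖mk ⟨a, b⟩ 0‖ = 1 := by rw [norm_mk1, norm_mk h, norm_zero, add_zero]
  have h2 : fn1 a b d (mk ⟨a, b⟩ 0) = 1 := by
    show a * a + b * b + d * (0 : ℂ).im = 1
    rw [Complex.zero_im]
    linarith
  exact zero_of S h0 h1 (norm_fn1 h hd) h2

theorem skew1 (S : P →L[ℝ] P) (h0 : numRadius S = 0) :
    ∃ t : ℝ, ∀ z : ℂ, (S (mk z 0)).fst.re = -t * z.im ∧ (S (mk z 0)).fst.im = t * z.re ∧
      (S (mk z 0)).snd.im = 0 := by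
  have e1 : (⟨1, 0⟩ : ℂ) = 1 := rfl
  have e2 : (⟨0, 1⟩ : ℂ) = Complex.I := rfl
  have a1 := state1 S h0 (a := 1) (b := 0) (d := 0) (by norm_num) (by norm_num)
  have a2 := state1 S h0 (a := 0) (b := 1) (d := 0) (by norm_num) (by norm_num)
  have a3 := state1 S h0 (a := 3 / 5) (b := 4 / 5) (d := 0) (by norm_num) (by norm_num)
  have b1 := state1 S h0 (a := 1) (b := 0) (d := 1) (by norm_num) (by norm_num)
  have b2 := state1 S h0 (a := 0) (b := 1) (d := 1) (by norm_num) (by norm_num)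
  have lin : ∀ z : ℂ, S (mk z 0) = z.re • S (mk 1 0) + z.im • S (mk Complex.I 0) := by
    intro z
    have h : mk z 0 = z.re • mk 1 0 + z.im • mk Complex.I 0 := by
      apply ext_P
      · show z = z.re • (1 : ℂ) + z.im • Complex.I
        apply Complex.ext <;> simp
      · show (0 : ℂ) = z.re • (0 : ℂ) + z.im • (0 : ℂ)
        simp
    conv_lhs => rw [h]
    rw [map_add, map_smul, map_smul]
  rw [e1] at a1 b1
  rw [e2] at a2 b2
  rw [lin] at a3
  simp at a1 a2 a3 b1 b2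
  have c1 : (S (mk Complex.I 0)).fst.re = -(S (mk 1 0)).fst.im := by linarith
  have c2 : (S (mk 1 0)).snd.im = 0 := by linarith
  have c3 : (S (mk Complex.I 0)).snd.im = 0 := by linarith
  refine ⟨(S (mk 1 0)).fst.im, fun z => ?_⟩
  rw [lin]
  simp [a1, a2, c1, c2, c3]
  constructor <;> ring

theorem lower1 (S : P →L[ℝ] P) (h0 : numRadius S = 0) : 7 * √21 / 3 ≤ ‖T1 + S‖ := by
  obtain ⟨t, ht⟩ := skew1 S h0
  have hr : √21 ^ 2 = 21 := Real.sq_sqrt (by norm_num)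
  have hp : √35 ^ 2 = 35 := Real.sq_sqrt (by norm_num)
  have hq : √15 ^ 2 = 15 := Real.sq_sqrt (by norm_num)
  have hpq : √35 * √15 = 5 * √21 := by
    rw [← Real.sqrt_mul (by norm_num)]
    rw [show (5 : ℝ) = √25 by rw [show (25 : ℝ) = 5 ^ 2 by norm_num]; exact (Real.sqrt_sq (by norm_num)).symm,
      ← Real.sqrt_mul (by norm_num)]
    norm_num
  have hbound : ∀ (z : ℂ) (a b : ℝ), ‖z‖ = 1 → a ^ 2 + b ^ 2 = 1 →
      a * (-7 * z.re - t * z.im) + b * (z.im + t * z.re) + 8 * z.im ≤ ‖T1 + S‖ := by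
    intro z a b hz hab
    have h1 := (T1 + S).le_opNorm (mk z 0)
    rw [norm_mk1, hz, norm_zero, add_zero, mul_one] at h1
    have h4 := fn1_le hab (d := 1) (by norm_num) ((T1 + S) (mk z 0))
    obtain ⟨s1, s2, s3⟩ := ht z
    have h5 : ((T1 + S) (mk z 0)).fst.re = -7 * z.re - t * z.im := by
      show -7 * z.re + (S (mk z 0)).fst.re = _
      rw [s1]; ring
    have h6 : ((T1 + S) (mk z 0)).fst.im = z.im + t * z.re := by
      show z.im + (S (mk z 0)).fst.im = _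
      rw [s2]
    have h7 : ((T1 + S) (mk z 0)).snd.im = 8 * z.im := by
      show 8 * z.im + (S (mk z 0)).snd.im = _
      rw [s3]; ring
    rw [fn1_apply, h5, h6, h7] at h4
    linarith
  have n1 : ‖(⟨√15 / 6, √21 / 6⟩ : ℂ)‖ = 1 := norm_mk (by linarith [hq, hr])
  have n2 : ‖(⟨-(√15 / 6), √21 / 6⟩ : ℂ)‖ = 1 := norm_mk (by linarith [hq, hr])
  have k1 := hbound ⟨√15 / 6, √21 / 6⟩ (-(√35 / 6)) (1 / 6) n1 (by linarith [hp])
  have k2 := hbound ⟨-(√15 / 6), √21 / 6⟩ (√35 / 6) (1 / 6) n2 (by linarith [hp])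
  simp only at k1 k2
  linarith [k1, k2, hpq]

end one

/-- For the real spaces underlying `ℂ ⊕_∞ ℂ` and `ℂ ⊕_1 ℂ` the second numerical index is at most
`(9/7) √(3/7) = 9 √21 / 49`, which is less than `0.8417`; the known bound `√3 / 2` is greater than
`0.866`. -/
theorem result : secondIndex (ℂ × ℂ) ≤ 9 * √21 / 49 ∧
    secondIndex (WithLp 1 (ℂ × ℂ)) ≤ 9 * √21 / 49 ∧
    9 * √21 / 49 < 0.8417 ∧ 0.866 < √3 / 2 := by
  have hr : √21 ^ 2 = 21 := Real.sq_sqrt (by norm_num)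
  have hr0 : 0 < √21 := Real.sqrt_pos.2 (by norm_num)
  have he : 9 / (7 * √21 / 3) = 9 * √21 / 49 := by
    field_simp
    linarith [hr]
  refine ⟨?_, ?_, ?_, ?_⟩
  · have h := index_le T0 (a := 9) (b := 7 * √21 / 3) (by positivity) (by norm_num) upper lower
    rwa [he] at h
  · have h := index_le T1 (a := 9) (b := 7 * √21 / 3) (by positivity) (by norm_num) upper1 lower1
    rwa [he] at h
  · have h1 : √21 < 4.58258 := by
      rw [Real.sqrt_lt' (by norm_num)]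
      norm_num
    norm_num at h1 ⊢
    linarith
  · have h1 : 1.732 < √3 := by
      rw [Real.lt_sqrt (by norm_num)]
      norm_num
    norm_num at h1 ⊢
    linarith

end Pool.Agent.Results.MP_1cee73_an.BelowSqrtThreeHalves
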